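import Pool.Agent.W2helper64.WJ.El

set_option autoImplicit false

/-!
# Wilson primes of several arithmetic progressions with the same difference:
the number of differences with exactly `k` Wilson primes, and the exceptional set
-/

namespace Pool.Agent.Results.MP_de5eaa_nt.ExactlyKWilsonPrimes

open Finset Filter
open scoped Classical Topology

/-- the product of those among the first `p` terms `b, b + a, …, b + (p-1)a` of the progression
that are not divisible by `p` -/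
def unitProduct (b a : ℤ) (p : ℕ) : ℤ :=
  ∏ k ∈ (range p).filter (fun k : ℕ => ¬ (p : ℤ) ∣ b + a * k), (b + a * k)

/-- `p` is a Wilson prime of the progression `b, b + a, b + 2a, …`: it does not divide `a`, and
Wilson's congruence for this progression holds modulo `p ^ 2`.  (For `b = 1`, `a = 1` these are the
Wilson primes.) -/
def IsWilsonPrime (b a : ℤ) (p : ℕ) : Prop :=
  p.Prime ∧ ¬ (p : ℤ) ∣ a ∧ (p : ℤ) ^ 2 ∣ unitProduct b a p + 1

/-- the number of the odd primes `p ≤ t` that are Wilson primes of at least one of the `r`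
progressions with difference `a` and first terms `β j + γ j a` -/
noncomputable def wilsonCount {r : ℕ} (β γ : Fin r → ℤ) (a : ℕ) (t : ℝ) : ℕ :=
  ((Icc 1 ⌊t⌋₊).filter (fun p : ℕ => p ≠ 2 ∧ ∃ j, IsWilsonPrime (β j + γ j * a) a p)).card

/-- the linear forms `β + γ a` and `β' + γ' a` (in the difference `a`) are neither equal nor
exchanged by the reflection `b ↦ a - b` -/
def Inequivalent (β γ β' γ' : ℤ) : Prop := (β, γ) ≠ (β', γ') ∧ (β, γ) ≠ (-β', 1 - γ')

theorem result :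
    -- let `r` progressions with pairwise inequivalent first terms be given
    (∀ (r : ℕ) (β γ : Fin r → ℤ), (∀ i j, i ≠ j → Inequivalent (β i) (γ i) (β j) (γ j)) →
      -- (i) the proportion of differences with exactly `k` Wilson primes up to `y`
      (∃ c : ℝ, 0 < c ∧ ∀ (k : ℕ) (y X : ℕ → ℕ), Tendsto y atTop atTop →
        Tendsto (fun n => Real.log (X n) / Real.log (y n)) atTop atTop →
        Tendsto (fun n => (((Icc 1 (X n)).filter (fun a : ℕ =>
            wilsonCount β γ a (y n) = k)).card : ℝ) / X n /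
          (Real.log (Real.log (y n)) ^ k / Real.log (y n) ^ r)) atTop
          (𝓝 (c * (r : ℝ) ^ k / (k.factorial : ℝ)))) ∧
      -- (ii) the exceptional set: fewer than `K` Wilson primes up to `X ^ θ`
      (∀ K : ℕ, 1 ≤ K → ∀ θ : ℝ, 0 < θ → ∃ C : ℝ, 0 < C ∧ ∀ X : ℕ, 16 ≤ X →
        (((Icc 1 X).filter (fun a : ℕ => wilsonCount β γ a ((X : ℝ) ^ θ) < K)).card : ℝ) ≤
          C * (X * Real.log (Real.log X) ^ (K - 1) / Real.log X ^ r)) ∧
      -- (iii) the exponent `r` is the right one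
      (∃ c δ : ℝ, 0 < c ∧ 0 < δ ∧ ∀ᶠ X : ℕ in atTop, c * (X / Real.log X ^ r) ≤
        (((Icc 1 X).filter (fun a : ℕ => wilsonCount β γ a ((X : ℝ) ^ δ) = 0)).card : ℝ))) ∧
    -- (iv) for all but `O (X / (log X) ^ A)` of the differences `a ≤ X` some progression with the
    -- difference `a` and a first term among `1, …, A` has a Wilson prime `p ≤ X ^ θ`
    (∀ (A : ℕ) (θ : ℝ), 0 < θ → ∃ C : ℝ, 0 < C ∧ ∀ X : ℕ, 16 ≤ X →
      (((Icc 1 X).filter (fun a : ℕ => ¬ ∃ b p : ℕ, 1 ≤ b ∧ b ≤ A ∧ p ≠ 2 ∧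
        (p : ℝ) ≤ (X : ℝ) ^ θ ∧ IsWilsonPrime b a p)).card : ℝ) ≤ C * (X / Real.log X ^ A)) := by
  have e : ∀ {r : ℕ} (β γ : Fin r → ℤ) (a : ℕ) (t : ℝ), wilsonCount β γ a t =
      Pool.Agent.W2helper64.WJ.nH β γ ⌊t⌋₊ a := by
    intro r β γ a t
    unfold wilsonCount Pool.Agent.W2helper64.WJ.nH
    apply congrArg card
    ext p
    rw [mem_filter, mem_filter, Pool.Agent.Helper92K9.WI.mem_Od, mem_Icc]
    constructor
    · rintro ⟨h1, h2, j, h3⟩
      exact ⟨⟨h1, h3.1, h2⟩, j, h3⟩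
    · rintro ⟨⟨h1, h4, h2⟩, j, h3⟩
      exact ⟨h1, h2, j, h3⟩
  have main : ∀ (r : ℕ) (β γ : Fin r → ℤ),
      (∀ i j, i ≠ j → Inequivalent (β i) (γ i) (β j) (γ j)) →
      (∃ c : ℝ, 0 < c ∧ ∀ (k : ℕ) (y X : ℕ → ℕ), Tendsto y atTop atTop →
        Tendsto (fun n => Real.log (X n) / Real.log (y n)) atTop atTop →
        Tendsto (fun n => (((Icc 1 (X n)).filter (fun a : ℕ =>
            wilsonCount β γ a (y n) = k)).card : ℝ) / X n /
          (Real.log (Real.log (y n)) ^ k / Real.log (y n) ^ r)) atTop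
          (𝓝 (c * (r : ℝ) ^ k / (k.factorial : ℝ)))) ∧
      (∀ K : ℕ, 1 ≤ K → ∀ θ : ℝ, 0 < θ → ∃ C : ℝ, 0 < C ∧ ∀ X : ℕ, 16 ≤ X →
        (((Icc 1 X).filter (fun a : ℕ => wilsonCount β γ a ((X : ℝ) ^ θ) < K)).card : ℝ) ≤
          C * (X * Real.log (Real.log X) ^ (K - 1) / Real.log X ^ r)) ∧
      (∃ c δ : ℝ, 0 < c ∧ 0 < δ ∧ ∀ᶠ X : ℕ in atTop, c * (X / Real.log X ^ r) ≤
        (((Icc 1 X).filter (fun a : ℕ => wilsonCount β γ a ((X : ℝ) ^ δ) = 0)).card : ℝ)) := by
    intro r β γ h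
    refine ⟨?_, ?_, ?_⟩
    · obtain ⟨c, hc0, hc⟩ := Pool.Agent.W2helper64.WJ.k_law β γ h
      refine ⟨c, hc0, fun k y X hy hX => ?_⟩
      have h1 := hc k y X hy hX
      rw [Fintype.card_fin] at h1
      refine h1.congr fun n => ?_
      simp only [e, Nat.floor_natCast]
      rfl
    · intro K hK θ hθ
      obtain ⟨C, hC0, hC⟩ := Pool.Agent.W2helper64.WJ.few_upper β γ h K hK θ hθ
      refine ⟨C, hC0, fun X hX => ?_⟩
      have h1 := hC X hX
      rw [Fintype.card_fin] at h1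
      simp only [e]
      exact h1
    · obtain ⟨c, δ, hc0, hδ, hc⟩ := Pool.Agent.W2helper64.WJ.none_lower β γ h
      refine ⟨c, δ, hc0, hδ, ?_⟩
      filter_upwards [hc] with X hX
      rw [Fintype.card_fin] at hX
      simp only [e]
      exact hX
  refine ⟨main, ?_⟩
  intro A θ hθ
  obtain ⟨_, h2, _⟩ := main A (fun j => (j : ℤ) + 1) (fun _ => 0)
    (by
      intro i j hij
      refine ⟨fun h => ?_, fun h => ?_⟩
      · have h1 := (Prod.mk.inj h).1
        apply hij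
        apply Fin.ext
        omega
      · have h1 := (Prod.mk.inj h).2
        omega)
  obtain ⟨C, hC0, hC⟩ := h2 1 le_rfl θ hθ
  refine ⟨C, hC0, fun X hX => ?_⟩
  have h1 := hC X hX
  rw [Nat.sub_self, pow_zero, mul_one] at h1
  refine le_trans ?_ h1
  have h3 : ((Icc 1 X).filter (fun a : ℕ => ¬ ∃ b p : ℕ, 1 ≤ b ∧ b ≤ A ∧ p ≠ 2 ∧
        (p : ℝ) ≤ (X : ℝ) ^ θ ∧ IsWilsonPrime b a p)).card ≤
      ((Icc 1 X).filter (fun a : ℕ => wilsonCount (fun j : Fin A => (j : ℤ) + 1) (fun _ => 0) a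
        ((X : ℝ) ^ θ) < 1)).card := by
    apply card_le_card
    intro a ha
    rw [mem_filter] at ha ⊢
    refine ⟨ha.1, ?_⟩
    rw [Nat.lt_one_iff]
    unfold wilsonCount
    rw [card_eq_zero, filter_eq_empty_iff]
    rintro p hp ⟨hp2, j, hj⟩
    rw [mem_Icc] at hp
    apply ha.2
    refine ⟨(j : ℕ) + 1, p, by omega, j.isLt, hp2, (Nat.le_floor_iff (by positivity)).1 hp.2, ?_⟩
    have e1 : ((j : ℕ) : ℤ) + 1 + 0 * (a : ℤ) = (((j : ℕ) + 1 : ℕ) : ℤ) := by push_cast; ring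
    rw [e1] at hj
    exact hj
  exact_mod_cast h3

end Pool.Agent.Results.MP_de5eaa_nt.ExactlyKWilsonPrimes
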