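import Pool.Agent.W2helper64.WJ.Gl

set_option autoImplicit false

/-!
# Wilson primes of several arithmetic progressions with the same difference:
the joint Gaussian law, and the rarity of common Wilson primes
-/

namespace Pool.Agent.Results.MP_de5eaa_nt.JointGaussianLaw

open Finset Filter MeasureTheory ProbabilityTheory
open scoped Classical Topology

/-- the product of those among the first `p` terms `b, b + a, …, b + (p-1)a` of the progression
that are not divisible by `p` -/
def unitProduct (b a : ℤ) (p : ℕ) : ℤ :=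
  ∏ k ∈ (range p).filter (fun k : ℕ => ¬ (p : ℤ) ∣ b + a * k), (b + a * k)

/-- `p` is a Wilson prime of the progression `b, b + a, b + 2a, …`: it does not divide `a`, and
Wilson's congruence for this progression holds modulo `p ^ 2`.  (For `b = 1`, `a = 1` these are the
Wilson primes.) -/
def IsWilsonPrime (b a : ℤ) (p : ℕ) : Prop :=
  p.Prime ∧ ¬ (p : ℤ) ∣ a ∧ (p : ℤ) ^ 2 ∣ unitProduct b a p + 1

/-- the number of Wilson primes `p ≤ y` of the progression -/
noncomputable def count (b a : ℤ) (y : ℕ) : ℕ := ((Icc 1 y).filter (fun p => IsWilsonPrime b a p)).card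

/-- the normalised number of Wilson primes `p ≤ y` of the progression:
`(count - log log y) / sqrt (log log y)` -/
noncomputable def normalised (b a : ℤ) (y : ℕ) : ℝ :=
  ((count b a y : ℝ) - Real.log (Real.log y)) / √(Real.log (Real.log y))

/-- the linear forms `β + γ a` and `β' + γ' a` (in the difference `a`) are neither equal nor
exchanged by the reflection `b ↦ a - b` -/
def Inequivalent (β γ β' γ' : ℤ) : Prop := (β, γ) ≠ (β', γ') ∧ (β, γ) ≠ (-β', 1 - γ')

theorem result :
    -- the reflection `b ↦ a - b` does not change the odd Wilson primes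
    (∀ (b a : ℤ) (p : ℕ), p ≠ 2 → (IsWilsonPrime (a - b) a p ↔ IsWilsonPrime b a p)) ∧
    -- progressions with inequivalent first terms have few common Wilson primes
    (∀ β γ β' γ' : ℤ, Inequivalent β γ β' γ' → ∃ C : ℝ, 0 < C ∧ ∀ X y : ℕ, y ^ 2 ≤ X →
      ∑ a ∈ Icc 1 X, ((((Icc 1 y).filter (fun p => IsWilsonPrime (β + γ * a) a p ∧
        IsWilsonPrime (β' + γ' * a) a p)).card : ℕ) : ℝ) ≤ C * X) ∧
    -- the joint Gaussian law
    (∀ (r : ℕ) (β γ : Fin r → ℤ), (∀ i j, i ≠ j → Inequivalent (β i) (γ i) (β j) (γ j)) →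
      ∀ y X : ℕ → ℕ, Tendsto y atTop atTop → (∀ n, y n ^ 2 ≤ X n) →
      -- the joint distribution function converges
      (∀ z : Fin r → ℝ, Tendsto (fun n => (((Icc 1 (X n)).filter
          (fun a : ℕ => ∀ j, normalised (β j + γ j * a) a (y n) ≤ z j)).card : ℝ) / X n) atTop
        (𝓝 (∏ j, ((gaussianReal 0 1) (Set.Iic (z j))).toReal))) ∧
      -- and so do the frequencies of all sets whose boundary has Gaussian measure zero
      (∀ s : Set (EuclideanSpace ℝ (Fin r)), MeasurableSet s →
        stdGaussian (EuclideanSpace ℝ (Fin r)) (frontier s) = 0 →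
        Tendsto (fun n => (((Icc 1 (X n)).filter
          (fun a : ℕ => WithLp.toLp 2 (fun j => normalised (β j + γ j * a) a (y n)) ∈ s)).card : ℝ) /
            X n) atTop (𝓝 ((stdGaussian (EuclideanSpace ℝ (Fin r))) s).toReal))) := by
  refine ⟨?_, ?_, ?_⟩
  · intro b a p hp2
    exact Pool.Agent.W2helper64.WJ.isWilson_refl b a hp2
  · intro β γ β' γ' h
    exact Pool.Agent.W2helper64.WJ.coincidences h
  · intro r β γ h y X hy hX
    refine ⟨fun z => ?_, fun s hs hf => ?_⟩
    · exact Pool.Agent.W2helper64.WJ.gauss_df β γ h y X hy hX z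
    · exact Pool.Agent.W2helper64.WJ.gauss_law β γ h y X hy hX s hs hf

end Pool.Agent.Results.MP_de5eaa_nt.JointGaussianLaw
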