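import Pool.Agent.W2helper64.WJ.Pp

set_option autoImplicit false

/-!
# Wilson primes of several arithmetic progressions with the same difference:
the joint Poisson law, and the law of the least Wilson prime beyond a given point
-/

namespace Pool.Agent.Results.MP_de5eaa_nt.PoissonWindows

open Finset Filter
open scoped Classical Topology

/-- the product of those among the first `p` terms `b, b + a, …, b + (p-1)a` of the progression
that are not divisible by `p` -/
def unitProduct (b a : ℤ) (p : ℕ) : ℤ :=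
  ∏ k ∈ (range p).filter (fun k : ℕ => ¬ (p : ℤ) ∣ b + a * k), (b + a * k)

/-- `p` is a Wilson prime of the progression `b, b + a, b + 2a, …`: it does not divide `a`, and
Wilson's congruence for this progression holds modulo `p ^ 2`.  (For `b = 1`, `a = 1` these are the
Wilson primes.) -/
def IsWilsonPrime (b a : ℤ) (p : ℕ) : Prop :=
  p.Prime ∧ ¬ (p : ℤ) ∣ a ∧ (p : ℤ) ^ 2 ∣ unitProduct b a p + 1

/-- the number of Wilson primes `p` of the progression with `s < p ≤ t` -/
noncomputable def countIn (b a : ℤ) (s t : ℝ) : ℕ :=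
  ((Icc 1 ⌊t⌋₊).filter (fun p : ℕ => s < (p : ℝ) ∧ IsWilsonPrime b a p)).card

/-- the linear forms `β + γ a` and `β' + γ' a` (in the difference `a`) are neither equal nor
exchanged by the reflection `b ↦ a - b` -/
def Inequivalent (β γ β' γ' : ℤ) : Prop := (β, γ) ≠ (β', γ') ∧ (β, γ) ≠ (-β', 1 - γ')

theorem result :
    -- the joint Poisson law: for `r` progressions with pairwise inequivalent first terms, and for
    -- each of them `m` windows `(y ^ lo, y ^ hi]` which do not overlap, the numbers of Wilson primes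
    -- in the windows behave as independent Poisson variables with the parameters `log (hi / lo)`
    (∀ (r m : ℕ) (β γ : Fin r → ℤ), (∀ i j, i ≠ j → Inequivalent (β i) (γ i) (β j) (γ j)) →
      ∀ lo hi : Fin r → Fin m → ℝ, (∀ j i, 0 < lo j i) → (∀ j i, lo j i ≤ hi j i) →
      (∀ j i i', i ≠ i' → hi j i ≤ lo j i' ∨ hi j i' ≤ lo j i) →
      ∀ y X : ℕ → ℕ, Tendsto y atTop atTop →
      Tendsto (fun n => Real.log (X n) / Real.log (y n)) atTop atTop →
      ∀ k : Fin r → Fin m → ℕ,
        Tendsto (fun n => (((Icc 1 (X n)).filter (fun a : ℕ => ∀ j i,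
          countIn (β j + γ j * a) a ((y n : ℝ) ^ lo j i) ((y n : ℝ) ^ hi j i) = k j i)).card : ℝ) /
            X n) atTop
        (𝓝 (∏ j, ∏ i, ((lo j i / hi j i) * Real.log (hi j i / lo j i) ^ (k j i) /
          ((k j i).factorial : ℝ))))) ∧
    -- the least Wilson prime beyond `y` exceeds `y ^ v` with probability `1 / v`, independently for
    -- the progressions
    (∀ (r : ℕ) (β γ : Fin r → ℤ), (∀ i j, i ≠ j → Inequivalent (β i) (γ i) (β j) (γ j)) →
      ∀ v : Fin r → ℝ, (∀ j, 1 ≤ v j) →
      ∀ y X : ℕ → ℕ, Tendsto y atTop atTop →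
      Tendsto (fun n => Real.log (X n) / Real.log (y n)) atTop atTop →
        Tendsto (fun n => (((Icc 1 (X n)).filter (fun a : ℕ => ∀ j, ∀ p : ℕ, y n < p →
          IsWilsonPrime (β j + γ j * a) a p → (y n : ℝ) ^ v j < p)).card : ℝ) / X n) atTop
        (𝓝 (∏ j, 1 / v j))) := by
  have main : ∀ (r m : ℕ) (β γ : Fin r → ℤ),
      (∀ i j, i ≠ j → Inequivalent (β i) (γ i) (β j) (γ j)) →
      ∀ lo hi : Fin r → Fin m → ℝ, (∀ j i, 0 < lo j i) → (∀ j i, lo j i ≤ hi j i) →
      (∀ j i i', i ≠ i' → hi j i ≤ lo j i' ∨ hi j i' ≤ lo j i) →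
      ∀ y X : ℕ → ℕ, Tendsto y atTop atTop →
      Tendsto (fun n => Real.log (X n) / Real.log (y n)) atTop atTop →
      ∀ k : Fin r → Fin m → ℕ,
        Tendsto (fun n => (((Icc 1 (X n)).filter (fun a : ℕ => ∀ j i,
          countIn (β j + γ j * a) a ((y n : ℝ) ^ lo j i) ((y n : ℝ) ^ hi j i) = k j i)).card : ℝ) /
            X n) atTop
        (𝓝 (∏ j, ∏ i, ((lo j i / hi j i) * Real.log (hi j i / lo j i) ^ (k j i) /
          ((k j i).factorial : ℝ)))) := by
    intro r m β γ h lo hi hlo hhi hd y X hy hX k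
    have e : ∀ (b c : ℤ) (v w : ℝ) (y a : ℕ), countIn (b + c * a) a ((y : ℝ) ^ v) ((y : ℝ) ^ w) =
        Pool.Agent.W2helper64.WJ.nw b c v w y a := by
      intro b c v w y a
      unfold countIn Pool.Agent.W2helper64.WJ.nw
      exact congrArg card (filter_congr fun p _ => Iff.rfl)
    simp only [e]
    convert Pool.Agent.W2helper64.WJ.pois_law β γ h lo hi hlo hhi hd y X hy hX k using 4
    congr!
  refine ⟨main, ?_⟩
  intro r β γ h v hv y X hy hX
  have h1 := main r 1 β γ h (fun _ _ => 1) (fun j _ => v j) (fun _ _ => one_pos) (fun j _ => hv j)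
    (fun j i i' hii => absurd (Subsingleton.elim i i') hii) y X hy hX (fun _ _ => 0)
  have e1 : ∏ j : Fin r, ∏ _i : Fin 1, ((1 : ℝ) / v j * Real.log (v j / 1) ^ 0 /
      ((Nat.factorial 0 : ℕ) : ℝ)) = ∏ j, 1 / v j := by
    simp
  rw [e1] at h1
  refine h1.congr fun n => ?_
  congr 2
  have : ((Icc 1 (X n)).filter (fun a : ℕ => ∀ (j : Fin r) (_i : Fin 1),
      countIn (β j + γ j * a) a ((y n : ℝ) ^ (1 : ℝ)) ((y n : ℝ) ^ v j) = 0)) =
      ((Icc 1 (X n)).filter (fun a : ℕ => ∀ j, ∀ p : ℕ, y n < p →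
          IsWilsonPrime (β j + γ j * a) a p → (y n : ℝ) ^ v j < p)) := by
    ext a
    rw [mem_filter, mem_filter]
    refine and_congr_right fun _ => ?_
    constructor
    · intro h2 j p hp hw
      have h3 := h2 j 0
      unfold countIn at h3
      rw [card_eq_zero, filter_eq_empty_iff] at h3
      by_contra hcon
      push Not at hcon
      refine h3 (x := p) ?_ ⟨?_, hw⟩
      · rw [mem_Icc]
        exact ⟨hw.1.one_le, Nat.le_floor hcon⟩
      · rw [Real.rpow_one]
        exact_mod_cast hp
    · intro h2 j _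
      unfold countIn
      rw [card_eq_zero, filter_eq_empty_iff]
      rintro p hp ⟨hp2, hw⟩
      rw [mem_Icc] at hp
      rw [Real.rpow_one] at hp2
      have h3 := h2 j p (by exact_mod_cast hp2) hw
      have h4 : (p : ℝ) ≤ (y n : ℝ) ^ v j :=
        (Nat.le_floor_iff (by positivity)).1 hp.2
      linarith
  rw [this]

end Pool.Agent.Results.MP_de5eaa_nt.PoissonWindows
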